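import Pool.Agent.PM94.Main

/-!
# Hamiltonian `(x,y)`-paths in path-mergeable digraphs: small certificates around deep vertices

A finite path-mergeable digraph has a Hamiltonian `(x,y)`-path iff reachability allows it and every
strong component of the digraph without `x` and `y` has a ranked set `X` of vertices, with at most
five vertices for each deep vertex of the component, that passes a few reachability tests.
-/

set_option autoImplicit false

namespace Pool.Agent.Results.MP_f8b4b7_lc.DeepKernel

open Relation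

/-- `p` is the vertex list of a directed path from `x` to `y` in the digraph with arc relation
`r`: it starts in `x`, ends in `y`, consecutive vertices are joined by arcs and no vertex is
repeated. -/
def IsPath {V : Type*} (r : V → V → Prop) (x y : V) (p : List V) : Prop :=
  p.head? = some x ∧ p.getLast? = some y ∧ p.IsChain r ∧ p.Nodup

/-- The digraph is path-mergeable: for all distinct `x`, `y` and all internally disjoint
`(x,y)`-paths `p`, `q` there is an `(x,y)`-path whose vertex set is the union of the vertex sets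
of `p` and `q`. -/
def PathMergeable {V : Type*} (r : V → V → Prop) : Prop :=
  ∀ x y : V, x ≠ y → ∀ p q : List V, IsPath r x y p → IsPath r x y q →
    (∀ v, v ∈ p → v ∈ q → v = x ∨ v = y) →
      ∃ s : List V, IsPath r x y s ∧ ∀ v, v ∈ s ↔ v ∈ p ∨ v ∈ q

/-- There is a walk from `u` to `v` in the subdigraph induced by `U`. -/
def Reach {V : Type*} (r : V → V → Prop) (U : Set V) (u v : V) : Prop :=
  u ∈ U ∧ ReflTransGen (fun a b => r a b ∧ b ∈ U) u v

/-- There is a walk with at least one arc from `u` to `w` all of whose interior vertices lie in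
`U`. -/
def Through {V : Type*} (r : V → V → Prop) (U : Set V) (u w : V) : Prop :=
  ∃ t, ReflTransGen (fun a b => r a b ∧ b ∈ U) u t ∧ r t w

/-- `u` and `v` are in the same strong component of the digraph with `x` and `y` deleted. -/
def SameComp {V : Type*} (r : V → V → Prop) (x y u v : V) : Prop :=
  Reach r {x, y}ᶜ u v ∧ Reach r {x, y}ᶜ v u

/-- `v` is an entry: it has an in-neighbour outside its component, other than `y`. -/
def Entry {V : Type*} (r : V → V → Prop) (x y v : V) : Prop :=
  v ≠ x ∧ v ≠ y ∧ ∃ u, r u v ∧ u ≠ y ∧ ¬ SameComp r x y u v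

/-- `v` is an exit: it has an out-neighbour outside its component, other than `x`. -/
def Exit {V : Type*} (r : V → V → Prop) (x y v : V) : Prop :=
  v ≠ x ∧ v ≠ y ∧ ∃ w, r v w ∧ w ≠ x ∧ ¬ SameComp r x y v w

/-- `v` is deep: neither `x` nor `y` nor an entry nor an exit. -/
def Deep {V : Type*} (r : V → V → Prop) (x y v : V) : Prop :=
  v ≠ x ∧ v ≠ y ∧ ¬ Entry r x y v ∧ ¬ Exit r x y v

/-- The component of `v₀`. -/
def comp {V : Type*} (r : V → V → Prop) (x y v₀ : V) : Set V := {v | SameComp r x y v₀ v}

/-- The deep vertices in the component of `v₀`. -/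
def deepIn {V : Type*} (r : V → V → Prop) (x y v₀ : V) : Set V :=
  {v | SameComp r x y v₀ v ∧ Deep r x y v}

/-- `X` with the ranks `ρ` is a skeleton of the component `K` of `v₀`: `X` lies in `K` and contains
the deep vertices of `K`; every vertex of `X` that is neither deep nor an entry has a lower
in-neighbour in `X`; every vertex of `X` that is neither deep nor an exit has a higher
out-neighbour in `X`; every deep vertex can be reached from a lower vertex of `X` through vertices
of `K` that are not entries and not in `X`, and reaches a higher vertex of `X` through vertices of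
`K` that are not exits and not in `X`. -/
def Skeleton {V : Type*} (r : V → V → Prop) (x y v₀ : V) (X : Finset V) (ρ : V → ℕ) : Prop :=
  (∀ v ∈ X, v ∈ comp r x y v₀) ∧ (∀ v ∈ deepIn r x y v₀, v ∈ X) ∧
  (∀ v ∈ X, ¬ Deep r x y v → ¬ Entry r x y v → ∃ u ∈ X, r u v ∧ ρ u < ρ v) ∧
  (∀ v ∈ X, ¬ Deep r x y v → ¬ Exit r x y v → ∃ u ∈ X, r v u ∧ ρ v < ρ u) ∧
  (∀ v ∈ X, Deep r x y v →
    (∃ u ∈ X, ρ u < ρ v ∧ Through r {z | z ∈ comp r x y v₀ ∧ ¬ Entry r x y z ∧ z ∉ X} u v) ∧
    ∃ u ∈ X, ρ v < ρ u ∧ Through r {z | z ∈ comp r x y v₀ ∧ ¬ Exit r x y z ∧ z ∉ X} v u)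

/-- `y` is reachable from `x`, and every other vertex is reachable from `x` without passing `y` and
reaches `y` without passing `x`. -/
def Linked {V : Type*} (r : V → V → Prop) (x y : V) : Prop :=
  Reach r Set.univ x y ∧ ∀ v, v ≠ x → v ≠ y → Reach r {y}ᶜ x v ∧ Reach r {x}ᶜ v y

theorem result {V : Type*} [Fintype V] (r : V → V → Prop) (hD : PathMergeable r) (x y : V)
    (hxy : x ≠ y) :
    (∃ p, IsPath r x y p ∧ ∀ v, v ∈ p) ↔
      Linked r x y ∧ ∀ v₀, v₀ ≠ x → v₀ ≠ y → ∃ (X : Finset V) (ρ : V → ℕ),
        Skeleton r x y v₀ X ρ ∧ X.card ≤ 5 * (deepIn r x y v₀).ncard := by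
  constructor
  · intro h
    obtain ⟨ρ, hρ⟩ := (PM94.ham_iff_lh hD).1 h
    exact ⟨PM94.linked_of_lh hxy hρ, fun v₀ _ _ => PM94.skeleton_of_good (PM94.good_of_lh hρ)⟩
  · rintro ⟨hL, h⟩
    obtain ⟨S, μ, hG, hdeep⟩ := PM94.good_of_skel (r := r) (x := x) (y := y) (fun v₀ h1 h2 => by
      obtain ⟨X, ρ, hX, -⟩ := h v₀ h1 h2
      exact ⟨X, ρ, hX⟩)
    exact PM94.ham_of_deep hD hxy hL hG hdeep

end Pool.Agent.Results.MP_f8b4b7_lc.DeepKernel
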