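import Pool.Agent.PM94.Free

/-!
# Hamiltonian `(x,y)`-paths in path-mergeable digraphs: only exposed deep vertices matter

A finite path-mergeable digraph has a Hamiltonian `(x,y)`-path iff reachability allows it and some
`(x,y)`-path contains all exposed deep vertices.
-/

set_option autoImplicit false

namespace Pool.Agent.Results.MP_f8b4b7_lc.ExposedVertices

open Relation

/-- `p` is the vertex list of a directed path from `x` to `y` in the digraph with arc relation
`r`: it starts in `x`, ends in `y`, consecutive vertices are joined by arcs and no vertex is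
repeated. -/
def IsPath {V : Type*} (r : V → V → Prop) (x y : V) (p : List V) : Prop :=
  p.head? = some x ∧ p.getLast? = some y ∧ p.IsChain r ∧ p.Nodup

/-- The digraph is path-mergeable: for all distinct `x`, `y` and all internally disjoint
`(x,y)`-paths `p`, `q` there is an `(x,y)`-path whose vertex set is the union of the vertex sets
of `p` and `q`. -/
def PathMergeable {V : Type*} (r : V → V → Prop) : Prop :=
  ∀ x y : V, x ≠ y → ∀ p q : List V, IsPath r x y p → IsPath r x y q →
    (∀ v, v ∈ p → v ∈ q → v = x ∨ v = y) →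
      ∃ s : List V, IsPath r x y s ∧ ∀ v, v ∈ s ↔ v ∈ p ∨ v ∈ q

/-- There is a walk from `u` to `v` in the subdigraph induced by `U`. -/
def Reach {V : Type*} (r : V → V → Prop) (U : Set V) (u v : V) : Prop :=
  u ∈ U ∧ ReflTransGen (fun a b => r a b ∧ b ∈ U) u v

/-- `u` and `v` are in the same strong component of the digraph with `x` and `y` deleted. -/
def SameComp {V : Type*} (r : V → V → Prop) (x y u v : V) : Prop :=
  Reach r {x, y}ᶜ u v ∧ Reach r {x, y}ᶜ v u

/-- `v` is an entry: it has an in-neighbour outside its component, other than `y`. -/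
def Entry {V : Type*} (r : V → V → Prop) (x y v : V) : Prop :=
  v ≠ x ∧ v ≠ y ∧ ∃ u, r u v ∧ u ≠ y ∧ ¬ SameComp r x y u v

/-- `v` is an exit: it has an out-neighbour outside its component, other than `x`. -/
def Exit {V : Type*} (r : V → V → Prop) (x y v : V) : Prop :=
  v ≠ x ∧ v ≠ y ∧ ∃ w, r v w ∧ w ≠ x ∧ ¬ SameComp r x y v w

/-- `v` is deep: neither `x` nor `y` nor an entry nor an exit. -/
def Deep {V : Type*} (r : V → V → Prop) (x y v : V) : Prop :=
  v ≠ x ∧ v ≠ y ∧ ¬ Entry r x y v ∧ ¬ Exit r x y v

/-- `u` is exposed: some walk in the component of `u` from an entry `a` to an out-neighbour `o` of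
`u` has no vertex before its last one that is `u` or adjacent to `u`. -/
def Exposed {V : Type*} (r : V → V → Prop) (x y u : V) : Prop :=
  ∃ a o, Entry r x y a ∧ SameComp r x y u a ∧ r u o ∧
    ReflTransGen (fun s t => r s t ∧ SameComp r x y u t ∧ s ≠ u ∧ ¬ r s u ∧ ¬ r u s) a o

/-- `y` is reachable from `x`, and every other vertex is reachable from `x` without passing `y` and
reaches `y` without passing `x`. -/
def Linked {V : Type*} (r : V → V → Prop) (x y : V) : Prop :=
  Reach r Set.univ x y ∧ ∀ v, v ≠ x → v ≠ y → Reach r {y}ᶜ x v ∧ Reach r {x}ᶜ v y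

theorem result {V : Type*} [Fintype V] (r : V → V → Prop) (hD : PathMergeable r) (x y : V)
    (hxy : x ≠ y) :
    (∃ p, IsPath r x y p ∧ ∀ v, v ∈ p) ↔
      Linked r x y ∧ ∃ p, IsPath r x y p ∧ ∀ v, Deep r x y v → Exposed r x y v → v ∈ p :=
  PM94.ham_iff_exposed hD hxy

end Pool.Agent.Results.MP_f8b4b7_lc.ExposedVertices
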