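import Pool.Agent.PM94.Height

/-!
# Vertex sets of paths in path-mergeable digraphs

In a path-mergeable digraph the vertex sets of the `(x,y)`-paths are exactly the finite sets that
are spanned by an acyclic subdigraph whose only source is `x` and whose only sink is `y`. In
particular a finite path-mergeable digraph has a Hamiltonian path iff it has a spanning acyclic
subdigraph with exactly one source and exactly one sink.
-/

set_option autoImplicit false

namespace Pool.Agent.Results.MP_f8b4b7_lc.HeightCriterion

/-- `p` is the vertex list of a directed path from `x` to `y` in the digraph with arc relation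
`r`: it starts in `x`, ends in `y`, consecutive vertices are joined by arcs and no vertex is
repeated. -/
def IsPath {V : Type*} (r : V → V → Prop) (x y : V) (p : List V) : Prop :=
  p.head? = some x ∧ p.getLast? = some y ∧ p.IsChain r ∧ p.Nodup

/-- The digraph is path-mergeable: for all distinct `x`, `y` and all internally disjoint
`(x,y)`-paths `p`, `q` there is an `(x,y)`-path whose vertex set is the union of the vertex sets
of `p` and `q`. -/
def PathMergeable {V : Type*} (r : V → V → Prop) : Prop :=
  ∀ x y : V, x ≠ y → ∀ p q : List V, IsPath r x y p → IsPath r x y q →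
    (∀ v, v ∈ p → v ∈ q → v = x ∨ v = y) →
      ∃ s : List V, IsPath r x y s ∧ ∀ v, v ∈ s ↔ v ∈ p ∨ v ∈ q

/-- The acyclic subdigraph is given by a height function `ρ`: every vertex of `S` except `x` has a
lower in-neighbour in `S`, and every vertex of `S` except `y` has a higher out-neighbour in `S`. -/
theorem result {V : Type*} (r : V → V → Prop) (hD : PathMergeable r) (x y : V) (S : Finset V) :
    (∃ p : List V, IsPath r x y p ∧ ∀ v, v ∈ p ↔ v ∈ S) ↔
      x ∈ S ∧ y ∈ S ∧ ∃ ρ : V → ℕ,
        (∀ v ∈ S, v ≠ x → ∃ u ∈ S, r u v ∧ ρ u < ρ v) ∧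
        ∀ v ∈ S, v ≠ y → ∃ w ∈ S, r v w ∧ ρ v < ρ w := by
  constructor
  · rintro ⟨p, hp, hpS⟩
    have hx : x ∈ p := by
      have h1 := hp.1
      cases p with
      | nil => simp at h1
      | cons a l =>
        simp only [List.head?_cons, Option.some.injEq] at h1
        rw [h1]; simp
    have hy : y ∈ p := List.mem_of_getLast? hp.2.1
    obtain ⟨ρ, h1, h2⟩ := PM94.height_of_path hp
    refine ⟨(hpS x).1 hx, (hpS y).1 hy, ρ, ?_, ?_⟩
    · intro v hv hvx
      obtain ⟨u, hu, h3⟩ := h1 v ((hpS v).2 hv) hvx
      exact ⟨u, (hpS u).1 hu, h3⟩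
    · intro v hv hvy
      obtain ⟨u, hu, h3⟩ := h2 v ((hpS v).2 hv) hvy
      exact ⟨u, (hpS u).1 hu, h3⟩
  · rintro ⟨hx, hy, ρ, h1, h2⟩
    exact PM94.path_of_height hD hx hy ρ h1 h2

end Pool.Agent.Results.MP_f8b4b7_lc.HeightCriterion
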